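import Mathlib
import Pool.Agent.H711R2.KG.Props
import Pool.Agent.H770R2.Kad.Props
import Pool.Agent.H710R2.DP.Tasks

/-!
Kadison's similarity problem for all C*-algebras: statements of the pieces (extension of a bounded
homomorphism to a von Neumann algebra, the centre, localisation). Everything in `Type`.
-/

open scoped ComplexOrder InnerProductSpace ComplexConjugate
open Finset

noncomputable section

namespace H711R2.KM

open H759R2.Kad H711R2.KG H770R2.Kad H710R2.DP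

/-- States. -/
def IsState {A : Type} [CStarAlgebra A] (φ : A →ₗ[ℂ] ℂ) : Prop :=
  φ 1 = 1 ∧ ∀ a, 0 ≤ φ (star a * a)

/-- Little Grothendieck inequality with states. -/
def M_hb : Prop :=
  ∀ (A : Type) [CStarAlgebra A] [PartialOrder A] [StarOrderedRing A] [Nontrivial A]
    (K : Type) [NormedAddCommGroup K] [InnerProductSpace ℂ K] [CompleteSpace K]
    (T : A →ₗ[ℂ] K) (M : ℝ), 0 ≤ M → (∀ b, ‖T b‖ ≤ M * ‖b‖) →
    ∃ φ ψ : A →ₗ[ℂ] ℂ, IsState φ ∧ IsState ψ ∧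
      ∀ a, ‖T a‖ ^ 2 ≤ 3 * M ^ 2 * ((φ (star a * a)).re + (ψ (a * star a)).re)

/-- A representation in which every state is a vector state. -/
def M_univ : Prop :=
  ∀ (A : Type) [CStarAlgebra A] [Nontrivial A],
    ∃ (E : Type) (_ : NormedAddCommGroup E) (_ : InnerProductSpace ℂ E) (_ : CompleteSpace E)
      (π : A →⋆ₐ[ℂ] (E →L[ℂ] E)), ∀ φ : A →ₗ[ℂ] ℂ, IsState φ →
      ∃ Ω : E, ‖Ω‖ = 1 ∧ ∀ a, ⟪Ω, π a Ω⟫_ℂ = φ a

/-- Strong convergence of a bounded homomorphism along nets that converge *-strongly in the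
universal representation. -/
def M_conv : Prop :=
  ∀ (A : Type) [CStarAlgebra A] [PartialOrder A] [StarOrderedRing A] [Nontrivial A]
    (E : Type) [NormedAddCommGroup E] [InnerProductSpace ℂ E] [CompleteSpace E]
    (π : A →⋆ₐ[ℂ] (E →L[ℂ] E)), (∀ φ : A →ₗ[ℂ] ℂ, IsState φ →
      ∃ Ω : E, ‖Ω‖ = 1 ∧ ∀ a, ⟪Ω, π a Ω⟫_ℂ = φ a) →
    ∀ (K : Type) [NormedAddCommGroup K] [InnerProductSpace ℂ K] [CompleteSpace K]
      (T : A →ₗ[ℂ] K) (M : ℝ), 0 ≤ M → (∀ b, ‖T b‖ ≤ M * ‖b‖) →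
    (∀ a : Ix E → A, Conv π a 0 → Filter.Tendsto (fun i => T (a i)) Filter.atTop (nhds 0)) ∧
    ∀ (a : Ix E → A) (x : E →L[ℂ] E), Conv π a x →
      ∃ y : K, Filter.Tendsto (fun i => T (a i)) Filter.atTop (nhds y)

/-- Extension of a bounded homomorphism to a von Neumann algebra. -/
def M_ext : Prop :=
  ∀ (A : Type) [CStarAlgebra A] [Nontrivial A] (H : Type) [NormedAddCommGroup H]
    [InnerProductSpace ℂ H] [CompleteSpace H] (u : A →ₗ[ℂ] (H →L[ℂ] H)), IsHom u →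
    ∀ c : ℝ, 0 ≤ c → (∀ a, ‖u a‖ ≤ c * ‖a‖) →
    ∃ (E : Type) (_ : NormedAddCommGroup E) (_ : InnerProductSpace ℂ E) (_ : CompleteSpace E)
      (W : VonNeumannAlgebra E) (π : A →⋆ₐ[ℂ] W.toStarSubalgebra)
      (U : W.toStarSubalgebra →ₗ[ℂ] (H →L[ℂ] H)), IsHom U ∧
      (∀ x, ‖U x‖ ≤ 2 * c * ‖x‖) ∧ ∀ a, U (π a) = u a

/-- Averaging over a finite group of central symmetries. -/
def M_fin : Prop :=
  ∀ (E : Type) [NormedAddCommGroup E] [InnerProductSpace ℂ E] [CompleteSpace E]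
    (W : VonNeumannAlgebra E) (H : Type) [NormedAddCommGroup H] [InnerProductSpace ℂ H]
    [CompleteSpace H] (U : W.toStarSubalgebra →ₗ[ℂ] (H →L[ℂ] H)), IsHom U →
    ∀ c : ℝ, 1 ≤ c → (∀ x, ‖U x‖ ≤ c * ‖x‖) → ∀ F : Finset W.toStarSubalgebra,
    (∀ p ∈ F, IsPrj p ∧ ∀ a, p * a = a * p) →
    ∃ P : H →L[ℂ] H, IsSelfAdjoint P ∧
      (∀ ξ, (c ^ 2)⁻¹ * ‖ξ‖ ^ 2 ≤ (⟪ξ, P ξ⟫_ℂ).re ∧ (⟪ξ, P ξ⟫_ℂ).re ≤ c ^ 2 * ‖ξ‖ ^ 2) ∧
      ∀ p ∈ F, star (U (1 - (2 : ℂ) • p)) * P * U (1 - (2 : ℂ) • p) = P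

/-- A similarity that makes the homomorphism *-preserving on the centre. -/
def M_cen : Prop :=
  ∀ (E : Type) [NormedAddCommGroup E] [InnerProductSpace ℂ E] [CompleteSpace E]
    (W : VonNeumannAlgebra E) (H : Type) [NormedAddCommGroup H] [InnerProductSpace ℂ H]
    [CompleteSpace H] (U : W.toStarSubalgebra →ₗ[ℂ] (H →L[ℂ] H)), IsHom U →
    ∀ c : ℝ, 1 ≤ c → (∀ x, ‖U x‖ ≤ c * ‖x‖) →
    ∃ S S' : H →L[ℂ] H, S * S' = 1 ∧ S' * S = 1 ∧ ‖S‖ ≤ c ∧ ‖S'‖ ≤ c ∧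
      ∀ z : W.toStarSubalgebra, (∀ a, z * a = a * z) →
        star (S * U z * S') = S * U (star z) * S'

/-- A bounded homomorphism of a C*-algebra factors through an injective bounded homomorphism of a
quotient. -/
def M_quot : Prop :=
  ∀ (A : Type) [CStarAlgebra A] (K : Type) [NormedAddCommGroup K] [InnerProductSpace ℂ K]
    [CompleteSpace K] (v : A →ₗ[ℂ] (K →L[ℂ] K)), IsHom v → ∀ c : ℝ, 0 ≤ c →
    (∀ a, ‖v a‖ ≤ c * ‖a‖) →
    ∃ (B : Type) (_ : CStarAlgebra B) (φ : A →⋆ₐ[ℂ] B) (w : B →ₗ[ℂ] (K →L[ℂ] K)),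
      Function.Surjective φ ∧ IsHom w ∧ (∀ b, ‖w b‖ ≤ c * ‖b‖) ∧ (∀ a, w (φ a) = v a) ∧
      ∀ a, v a = 0 → φ a = 0

/-- Localisation. -/
def M_loc : Prop :=
  ∀ (E : Type) [NormedAddCommGroup E] [InnerProductSpace ℂ E] [CompleteSpace E]
    (W : VonNeumannAlgebra E) [PartialOrder W.toStarSubalgebra]
    [StarOrderedRing W.toStarSubalgebra] (H : Type) [NormedAddCommGroup H] [InnerProductSpace ℂ H]
    [CompleteSpace H] (U : W.toStarSubalgebra →ₗ[ℂ] (H →L[ℂ] H)), IsHom U →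
    ∀ c : ℝ, 0 ≤ c → (∀ x, ‖U x‖ ≤ c * ‖x‖) →
    (∀ z : W.toStarSubalgebra, (∀ a, z * a = a * z) → star (U z) = U (star z)) →
    ∀ (m : ℕ) (C : ℝ), 0 ≤ C →
    (∀ (B : Type) [CStarAlgebra B] [PartialOrder B] [StarOrderedRing B]
      (φ : W.toStarSubalgebra →⋆ₐ[ℂ] B), Function.Surjective φ →
      (∀ z : W.toStarSubalgebra, (∀ a, z * a = a * z) → ∃ l : ℂ, φ z = algebraMap ℂ B l) →
      ∀ (K : Type) [NormedAddCommGroup K] [InnerProductSpace ℂ K] [CompleteSpace K]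
        (w : B →ₗ[ℂ] (K →L[ℂ] K)), IsHom w → (∀ b, ‖w b‖ ≤ c * ‖b‖) → LvlBd w m C) →
    LvlBd U m C

/-- Every bounded homomorphism of a C*-algebra is completely bounded. -/
def M_main : Prop :=
  ∀ (A : Type) [CStarAlgebra A] [PartialOrder A] [StarOrderedRing A] (H : Type)
    [NormedAddCommGroup H] [InnerProductSpace ℂ H] [CompleteSpace H]
    (u : A →ₗ[ℂ] (H →L[ℂ] H)), IsHom u → ∀ c : ℝ, 1 ≤ c → (∀ a, ‖u a‖ ≤ c * ‖a‖) →
    ∀ m : ℕ, LvlBd u m (432 * (2 * c) ^ 77)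

end H711R2.KM
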